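import Mathlib
import Pool.Agent.N290.RM.Stm
import Pool.Agent.N602.RK.LAL

/-!
# Project RM (helper290): localised approximation by holomorphic functions near a boundary point,
general weights (LALG), by helper385; the proof follows `Pool.Agent.N602.RK.LAL`
-/

set_option autoImplicit false

open Complex MeasureTheory Set Filter Topology
open scoped ENNReal

namespace Pool.Agent.N385.RM

open Pool.Agent.N290.RJ Pool.Agent.N290.RK Pool.Agent.N290.RL Pool.Agent.N290.RM
open Pool.Agent.N602.RK Pool.Agent.N655.RJ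

variable {d : ℕ}

/-- the majorant -/
noncomputable def mjg (W : E d → ℝ) (D β κ C β' : ℝ) (m : ℕ) (z : E d) : ℝ :=
  D * β ^ m * Real.sqrt (min (1 - N z) 1) + C * ((if 1 - N z ≤ κ then W z else 0) +
    β' ^ m * W z)

theorem db_gag {θ : ℝ → ℝ} (hθ : ContDiff ℝ 1 θ) (hθ2 : ∀ t, 2 ≤ t → θ t = 0)
    (hθ01 : ∀ t, 0 ≤ θ t ∧ θ t ≤ 1) {L : ℝ} (hL : 0 ≤ L)
    (hθL : ∀ t, |deriv θ t| ≤ L) (hθd : ∀ t, t < 1 → deriv θ t = 0)
    {W : E d → ℝ} (hW0 : ∀ z, 0 ≤ W z) {R ε C κ : ℝ} (hR : 0 < R) (hC : 0 < C) (hκ : 0 < κ)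
    (hε : 0 < ε) (hε1 : 2 * ε < R ^ 2) {p : E d} (hp : N p = 1) {h : E d → ℂ}
    (hh : ContDiffOn ℝ 1 h {z | z ∈ B d ∧ nm (z - p) < R})
    (hhC : ∀ z ∈ B d, nm (z - p) < R → ‖h z‖ ≤ C)
    (hdb : ∀ z ∈ B d, nm (z - p) < R → ∀ ξ, ‖db h z ξ‖ ≤ C * W z * len z ξ)
    (m : ℕ) {z : E d} (hz : z ∈ B d) (ξ : E d) :
    ‖db (ga θ ε p h m) z ξ‖ ≤ mjg W (C * (4 * L / ε)) (Real.sqrt (1 - ε / 4)) κ C
      (Real.sqrt (1 - κ ^ 2 / 4 / 4)) m z * len z ξ := by
  have hl := len_nonneg z ξ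
  have hWz := hW0 z
  have hz1 : N z < 1 := hz
  have hz2 := N_nonneg z
  have hmin : min (1 - N z) 1 = 1 - N z := min_eq_left (by linarith)
  have hmj0 : 0 ≤ (if 1 - N z ≤ κ then W z else 0) := by
    split_ifs
    · exact hW0 _
    · exact le_rfl
  have hmj : 0 ≤ mjg W (C * (4 * L / ε)) (Real.sqrt (1 - ε / 4)) κ C
      (Real.sqrt (1 - κ ^ 2 / 4 / 4)) m z := by
    unfold mjg
    positivity
  rcases near_or hR hε1 p z with h1 | h1
  · have d1 : DifferentiableAt ℝ (cu θ ε p : E d → ℂ) z :=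
      ((cu_contDiff hθ ε p).differentiable one_ne_zero).differentiableAt
    have d2 : DifferentiableAt ℝ h z :=
      (hh.contDiffAt ((U_open p R).mem_nhds ⟨hz, h1⟩)).differentiableAt one_ne_zero
    have d3 : DifferentiableAt ℂ (fun w : E d => qq p w ^ m) z := ((qq_diff p).pow m).differentiableAt
    have d3' : DifferentiableAt ℝ (fun w : E d => qq p w ^ m) z := d3.restrictScalars ℝ
    have e1 : db (ga θ ε p h m) z ξ = cu θ ε p z * (qq p z ^ m * db h z ξ) +
        (h z * qq p z ^ m) * db (cu θ ε p) z ξ := by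
      have e2 := db_mul d1 (d2.mul d3') ξ
      have e3 := db_mul d2 d3' ξ
      rw [db_hol d3, mul_zero, zero_add] at e3
      have e4 : db (fun w => h w * qq p w ^ m) z ξ = qq p z ^ m * db h z ξ := e3
      have e5 : db (ga θ ε p h m) z ξ = cu θ ε p z * db (fun w => h w * qq p w ^ m) z ξ +
        (h z * qq p z ^ m) * db (cu θ ε p) z ξ := e2
      rw [e5, e4]
    have hq1 := qq_le_one hp hz
    have hq0 := norm_nonneg (qq p z)
    -- the first term
    have T1 : ‖qq p z‖ ^ m * W z ≤ (if 1 - N z ≤ κ then W z else 0) +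
        Real.sqrt (1 - κ ^ 2 / 4 / 4) ^ m * W z := by
      by_cases hk : 1 - N z ≤ κ
      · rw [if_pos hk]
        have h2 : ‖qq p z‖ ^ m ≤ 1 := pow_le_one₀ hq0 hq1
        have h3 : 0 ≤ Real.sqrt (1 - κ ^ 2 / 4 / 4) ^ m * W z := by positivity
        have h4 : ‖qq p z‖ ^ m * W z ≤ 1 * W z :=
          mul_le_mul_of_nonneg_right h2 (hW0 z)
        linarith
      · rw [if_neg hk, zero_add]
        push Not at hk
        refine mul_le_mul_of_nonneg_right ?_ (hW0 z)
        refine pow_le_pow_left₀ hq0 ?_ m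
        apply qq_le_sqrt hp hz
        have h2 : 1 - nm z ≤ nm (z - p) := by
          have h6 := nm_add z (p - z)
          have e1 : z + (p - z) = p := by abel
          have e2 : nm (p - z) = nm (z - p) := by
            rw [← nm_neg]
            congr 1
            abel
          rw [e1, nm_one hp, e2] at h6
          linarith
        have h3 : κ / 2 ≤ nm (z - p) := by
          have h4 : 1 - N z = (1 - nm z) * (1 + nm z) := by rw [← nm_sq]; ring
          have h5 : nm z < 1 := mem_B_nm.1 hz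
          have h6 := nm_nonneg z
          nlinarith
        have h4 : (κ / 2) ^ 2 ≤ nm (z - p) ^ 2 := pow_le_pow_left₀ (by positivity) h3 2
        rw [nm_sq] at h4
        linarith
    have T1' : ‖cu θ ε p z * (qq p z ^ m * db h z ξ)‖ ≤
        C * ((if 1 - N z ≤ κ then W z else 0) +
        Real.sqrt (1 - κ ^ 2 / 4 / 4) ^ m * W z) * len z ξ := by
      rw [norm_mul, norm_mul, norm_pow]
      have h2 := cu_norm hθ01 ε p z
      have h3 := hdb z hz h1 ξ
      calc ‖cu θ ε p z‖ * (‖qq p z‖ ^ m * ‖db h z ξ‖) ≤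
          1 * (‖qq p z‖ ^ m * (C * W z * len z ξ)) := by gcongr
        _ = C * (‖qq p z‖ ^ m * W z) * len z ξ := by ring
        _ ≤ _ := by gcongr
    -- the second term
    have T2 : ‖(h z * qq p z ^ m) * db (cu θ ε p) z ξ‖ ≤
        C * (4 * L / ε) * Real.sqrt (1 - ε / 4) ^ m * Real.sqrt (min (1 - N z) 1) * len z ξ := by
      have h2 := norm_db_cu hθ hε p z ξ
      by_cases h3 : N (z - p) < ε
      · rw [hθd _ ((div_lt_one hε).2 h3), abs_zero, zero_mul, zero_mul] at h2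
        have h4 := le_antisymm h2 (norm_nonneg _)
        rw [norm_mul, h4, mul_zero]
        positivity
      · push Not at h3
        have h4 : ‖qq p z‖ ^ m ≤ Real.sqrt (1 - ε / 4) ^ m :=
          pow_le_pow_left₀ hq0 (qq_le_sqrt hp hz h3) m
        have h5 : nm (z - p) ≤ 2 := by
          have h6 := nm_add z (-p)
          rw [← sub_eq_add_neg, nm_neg, nm_one hp] at h6
          have h7 : nm z < 1 := mem_B_nm.1 hz
          linarith
        have h6 := nm_le_len hz ξ
        have h7 := nm_nonneg ξ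
        have h8 := nm_nonneg (z - p)
        have h9 := hθL (N (z - p) / ε)
        have h10 := hhC z hz h1
        rw [norm_mul, norm_mul, norm_pow, hmin]
        have h11 : ‖db (cu θ ε p) z ξ‖ ≤ L * (2 / ε) * (2 * (Real.sqrt (1 - N z) * len z ξ)) := by
          refine h2.trans ?_
          gcongr
        calc ‖h z‖ * ‖qq p z‖ ^ m * ‖db (cu θ ε p) z ξ‖ ≤
            C * Real.sqrt (1 - ε / 4) ^ m * (L * (2 / ε) * (2 * (Real.sqrt (1 - N z) * len z ξ))) := by
              gcongr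
          _ = _ := by ring
    rw [e1]
    refine (norm_add_le _ _).trans ?_
    unfold mjg
    rw [add_mul]
    linarith
  · have h3 : db (fun _ : E d => (0 : ℂ)) z ξ = 0 := by
      unfold db
      simp
    rw [db_congr (ga_far hθ2 hε p h m h1), h3, norm_zero]
    exact mul_nonneg hmj hl

/-- the integral of the majorant -/
theorem int_mjg {W : E d → ℝ} (hW0 : ∀ z, 0 ≤ W z) (hW : Measurable W) {D β κ C β' A1 A2 s : ℝ} (hD : 0 ≤ D) (hβ : 0 ≤ β)
    (hC : 0 ≤ C) (hβ' : 0 ≤ β') (hA1 : 0 ≤ A1) (hA2 : 0 ≤ A2) (hs : 0 ≤ s) (m : ℕ) {z : E d}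
    (h1 : ∫⁻ w in B d, ENNReal.ofReal (Real.sqrt (min (1 - N w) 1) * ker z w) ≤ ENNReal.ofReal A1)
    (h2 : ∫⁻ w in B d, ENNReal.ofReal (W w * ker z w) ≤ ENNReal.ofReal A2)
    (h3 : ∫⁻ w in B d, ENNReal.ofReal ((if 1 - N w ≤ κ then W w else 0) * ker z w) ≤
      ENNReal.ofReal s) :
    ∫⁻ w in B d, ENNReal.ofReal (mjg W D β κ C β' m w * ker z w) ≤
      ENNReal.ofReal (D * β ^ m * A1 + C * (s + β' ^ m * A2)) := by
  have hN : Measurable (N : E d → ℝ) := N_continuous.measurable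
  have hif : Measurable fun w : E d => (if 1 - N w ≤ κ then W w else 0) :=
    Measurable.ite (measurableSet_le (measurable_const.sub hN) measurable_const) hW measurable_const
  have hsq : Measurable fun w : E d => Real.sqrt (min (1 - N w) 1) :=
    ((measurable_const.sub hN).min measurable_const).sqrt
  have hif0 : ∀ w : E d, 0 ≤ (if 1 - N w ≤ κ then W w else 0) := by
    intro w
    split_ifs
    · exact hW0 _
    · exact le_rfl
  have e : ∫⁻ w in B d, ENNReal.ofReal (mjg W D β κ C β' m w * ker z w) =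
      ENNReal.ofReal (D * β ^ m) * (∫⁻ w in B d, ENNReal.ofReal (Real.sqrt (min (1 - N w) 1) * ker z w)) +
      (ENNReal.ofReal C * (∫⁻ w in B d, ENNReal.ofReal ((if 1 - N w ≤ κ then W w else 0) *
        ker z w)) +
      ENNReal.ofReal (C * β' ^ m) * (∫⁻ w in B d, ENNReal.ofReal (W w * ker z w))) := by
    rw [← lintegral_const_mul' _ _ ENNReal.ofReal_ne_top, ← lintegral_const_mul' _ _ ENNReal.ofReal_ne_top,
      ← lintegral_const_mul' _ _ ENNReal.ofReal_ne_top, ← lintegral_add_left', ← lintegral_add_left']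
    · congr 1
      funext w
      have k0 := ker_nonneg z w
      have k2 := hW0 w
      have k1 := hif0 w
      rw [← ENNReal.ofReal_mul (by positivity), ← ENNReal.ofReal_mul hC, ← ENNReal.ofReal_mul (by positivity),
        ← ENNReal.ofReal_add (by positivity) (by positivity), ← ENNReal.ofReal_add (by positivity) (by positivity)]
      congr 1
      unfold mjg
      ring
    · exact (((hsq.mul (ker_meas z)).ennreal_ofReal).const_mul _).aemeasurable
    · exact (((hif.mul (ker_meas z)).ennreal_ofReal).const_mul _).aemeasurable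
  rw [e]
  calc _ ≤ ENNReal.ofReal (D * β ^ m) * ENNReal.ofReal A1 +
      (ENNReal.ofReal C * ENNReal.ofReal s + ENNReal.ofReal (C * β' ^ m) * ENNReal.ofReal A2) := by
        gcongr
    _ = _ := by
        rw [← ENNReal.ofReal_mul (by positivity), ← ENNReal.ofReal_mul hC, ← ENNReal.ofReal_mul (by positivity),
          ← ENNReal.ofReal_add (by positivity) (by positivity), ← ENNReal.ofReal_add (by positivity) (by positivity)]
        congr 1
        ring

theorem mjg_meas {W : E d → ℝ} (hW : Measurable W) (D β κ C β' : ℝ) (m : ℕ) :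
    Measurable (mjg W D β κ C β' m : E d → ℝ) := by
  have hN : Measurable (N : E d → ℝ) := N_continuous.measurable
  have hif : Measurable fun w : E d => (if 1 - N w ≤ κ then W w else 0) :=
    Measurable.ite (measurableSet_le (measurable_const.sub hN) measurable_const) hW measurable_const
  have hsq : Measurable fun w : E d => Real.sqrt (min (1 - N w) 1) :=
    ((measurable_const.sub hN).min measurable_const).sqrt
  unfold mjg
  exact (measurable_const.mul hsq).add (measurable_const.mul (hif.add (measurable_const.mul hW)))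

/-- RM/LALG -/
theorem LALG_of (d : ℕ) (hC : Cmain d) (h9 : C9 d) : Pool.Agent.N290.RM.LALG d := by
  intro C R τ hC0 hR hτ η hη
  obtain ⟨C₀, hC₀, hC⟩ := hC
  obtain ⟨c9, hc9, h9⟩ := h9
  obtain ⟨θ, L, hθ, hθ1, hθ2, hθ01, hL, hθL, hθd⟩ := exists_cut
  obtain ⟨κ, hκ, hκτ⟩ : ∃ κ : ℝ, 0 < κ ∧ τ κ ≤ η / (4 * (C₀ * C)) := by
    have e1 : ∀ᶠ t in 𝓝[>] (0 : ℝ), τ t < η / (4 * (C₀ * C)) :=
      hτ.eventually (gt_mem_nhds (by positivity))
    have e2 : ∀ᶠ t in 𝓝[>] (0 : ℝ), 0 < t := eventually_mem_nhdsWithin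
    obtain ⟨t, h1, h2⟩ := (e1.and e2).exists
    exact ⟨t, h2, h1.le⟩
  obtain ⟨A1, hA1⟩ : ∃ A1 : ℝ, A1 = (ENNReal.ofReal c9 * (1 + ∫⁻ t in Ioo (0 : ℝ) 1,
    ENNReal.ofReal (Real.sqrt (min t 1) / t))).toReal := ⟨_, rfl⟩
  obtain ⟨A2, hA2⟩ : ∃ A2 : ℝ, A2 = max (τ 1) 0 := ⟨_, rfl⟩
  have hA10 : 0 ≤ A1 := by rw [hA1]; exact ENNReal.toReal_nonneg
  have hA20 : 0 ≤ A2 := by rw [hA2]; exact le_max_right _ _
  have hB1 : ∀ z ∈ B d, ∫⁻ w in B d, ENNReal.ofReal (Real.sqrt (min (1 - N w) 1) * ker z w) ≤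
      ENNReal.ofReal A1 := by
    intro z hz
    rw [hA1, ENNReal.ofReal_toReal]
    · refine h9 (fun t => Real.sqrt (min t 1)) (fun t t' h => Real.sqrt_le_sqrt (min_le_min_right 1 h))
        (fun t => Real.sqrt_nonneg _) (fun t => ?_) z hz
      refine Real.sqrt_le_iff.2 ⟨by norm_num, ?_⟩
      rw [one_pow]
      exact min_le_right _ _
    · exact ENNReal.mul_ne_top ENNReal.ofReal_ne_top (ENNReal.add_ne_top.2 ⟨ENNReal.one_ne_top, sqrt_int⟩)
  obtain ⟨ε, hε⟩ : ∃ ε : ℝ, ε = R ^ 2 / 16 := ⟨_, rfl⟩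
  have hε0 : 0 < ε := by rw [hε]; positivity
  have hR2 : 0 < R ^ 2 := by positivity
  have hε1 : 2 * ε < R ^ 2 := by rw [hε]; linarith
  obtain ⟨D, hD⟩ : ∃ D : ℝ, D = C * (4 * L / ε) := ⟨_, rfl⟩
  have hD0 : 0 ≤ D := by rw [hD]; positivity
  have hlt : ∀ x : ℝ, 0 < x → Real.sqrt (1 - x) < 1 := by
    intro x hx
    rw [Real.sqrt_lt' one_pos]
    linarith
  obtain ⟨m, hmm⟩ : ∃ m : ℕ, C₀ * D * A1 * Real.sqrt (1 - ε / 4) ^ m +
      C₀ * C * A2 * Real.sqrt (1 - κ ^ 2 / 4 / 4) ^ m < η / 4 := by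
    have t1 := (tendsto_pow_atTop_nhds_zero_of_lt_one (Real.sqrt_nonneg (1 - ε / 4))
      (hlt (ε / 4) (by positivity))).const_mul (C₀ * D * A1)
    have t2 := (tendsto_pow_atTop_nhds_zero_of_lt_one (Real.sqrt_nonneg (1 - κ ^ 2 / 4 / 4))
      (hlt (κ ^ 2 / 4 / 4) (by positivity))).const_mul (C₀ * C * A2)
    have t3 := t1.add t2
    rw [mul_zero, mul_zero, add_zero] at t3
    exact (t3.eventually (gt_mem_nhds (by positivity : (0 : ℝ) < η / 4))).exists
  refine ⟨min (R / 4) (η / (C * (m + 1))), by positivity, ?_⟩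
  intro a ha htail p hp h hh hhC hdb0
  obtain ⟨W, hWdef⟩ : ∃ W : E d → ℝ, W = (B d).indicator fun z => a z ^ 2 := ⟨_, rfl⟩
  have hWB : ∀ z ∈ B d, W z = a z ^ 2 := by
    intro z hz
    rw [hWdef, indicator_of_mem hz]
  have hW0 : ∀ z, 0 ≤ W z := by
    intro z
    rw [hWdef]
    exact indicator_nonneg (fun z _ => sq_nonneg _) z
  have hWm : Measurable W := by
    classical
    rw [hWdef, ← Set.piecewise_eq_indicator]
    exact ContinuousOn.measurable_piecewise (ha.a1.continuousOn.pow 2) continuousOn_const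
      B_open.measurableSet
  have hdb : ∀ z ∈ B d, nm (z - p) < R → ∀ ξ, ‖db h z ξ‖ ≤ C * W z * len z ξ := by
    intro z hz h1 ξ
    rw [hWB z hz]
    exact hdb0 z hz h1 ξ
  have hTL : ∀ z ∈ B d, ∫⁻ w in B d, ENNReal.ofReal ((if 1 - N w ≤ κ then W w else 0) * ker z w) ≤
      ENNReal.ofReal (η / (4 * (C₀ * C))) := by
    intro z hz
    refine le_trans (le_of_eq ?_) ((htail κ hκ z hz).trans (ENNReal.ofReal_le_ofReal hκτ))
    refine setLIntegral_congr_fun B_open.measurableSet fun w hw => ?_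
    simp only [hWB w hw]
  have hB2 : ∀ z ∈ B d, ∫⁻ w in B d, ENNReal.ofReal (W w * ker z w) ≤ ENNReal.ofReal A2 := by
    intro z hz
    refine le_trans (le_of_eq ?_) ((htail 1 one_pos z hz).trans (ENNReal.ofReal_le_ofReal ?_))
    · refine setLIntegral_congr_fun B_open.measurableSet fun w hw => ?_
      have h1 : 1 - N w ≤ 1 := by
        have := N_nonneg w
        linarith
      simp only [hWB w hw, if_pos h1]
    · rw [hA2]
      exact le_max_left _ _
  obtain ⟨H, hH, hHb⟩ := hC (ga θ ε p h m) C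
    (mjg W D (Real.sqrt (1 - ε / 4)) κ C (Real.sqrt (1 - κ ^ 2 / 4 / 4)) m)
    (ga_contDiffOn hθ hθ2 hR hε0 hε1 p hh m) (fun z hz => ga_norm hθ2 hθ01 hR hC0 hε0 hε1 hp hhC m hz)
    (mjg_meas hWm _ _ _ _ _ m)
    (fun z hz => by
      unfold mjg
      have hWz := hW0 z
      have h3 : 0 ≤ (if 1 - N z ≤ κ then W z else 0) := by
        split_ifs
        · exact hWz
        · exact le_rfl
      positivity)
    (fun z hz ξ => by
      rw [hD]
      exact db_gag hθ hθ2 hθ01 hL hθL hθd hW0 hR hC0 hκ hε0 hε1 hp hh hhC hdb m hz ξ)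
  refine ⟨H, hH, ?_⟩
  intro z hz hzp
  have h4 : ‖ga θ ε p h m z - H z‖ ≤ η / 2 := by
    have h5 := (hHb z hz).trans (mul_le_mul_right
      (int_mjg (C := C) hW0 hWm hD0 (Real.sqrt_nonneg (1 - ε / 4)) hC0.le (Real.sqrt_nonneg (1 - κ ^ 2 / 4 / 4)) hA10 hA20
        (by positivity) m (hB1 z hz) (hB2 z hz) (hTL z hz)) _)
    rw [← ENNReal.ofReal_mul hC₀.le] at h5
    have e : C₀ * (D * Real.sqrt (1 - ε / 4) ^ m * A1 + C * (η / (4 * (C₀ * C)) +
        Real.sqrt (1 - κ ^ 2 / 4 / 4) ^ m * A2)) = (C₀ * D * A1 * Real.sqrt (1 - ε / 4) ^ m +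
      C₀ * C * A2 * Real.sqrt (1 - κ ^ 2 / 4 / 4) ^ m) + η / 4 := by
      field_simp
      ring
    rw [e] at h5
    have h6 := h5.trans (ENNReal.ofReal_le_ofReal (by linarith : (C₀ * D * A1 * Real.sqrt (1 - ε / 4) ^ m +
      C₀ * C * A2 * Real.sqrt (1 - κ ^ 2 / 4 / 4) ^ m) + η / 4 ≤ η / 2))
    exact (ENNReal.ofReal_le_ofReal_iff (by positivity)).1 h6
  have h5 : nm (z - p) < R / 4 := lt_of_lt_of_le hzp (min_le_left _ _)
  have h6 : nm (z - p) ≤ η / (C * (m + 1)) := (lt_of_lt_of_le hzp (min_le_right _ _)).le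
  have h7 : N (z - p) / ε ≤ 1 := by
    rw [div_le_one hε0, ← nm_sq, hε]
    have h8 := nm_nonneg (z - p)
    nlinarith
  have h8 : ga θ ε p h m z = h z * qq p z ^ m := by
    unfold ga cu
    rw [hθ1 _ h7, Complex.ofReal_one, one_mul]
  have h9 : ‖h z * (qq p z ^ m - 1)‖ ≤ η / 2 := by
    rw [norm_mul]
    have k1 := hhC z hz (by linarith)
    have k2 := pow_sub_one_le (qq_le_one hp hz) m
    have k3 := qq_sub_one (z := z) hp
    have k4 : (m : ℝ) * ‖qq p z - 1‖ ≤ m * (η / (C * (m + 1)) / 2) := by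
      gcongr
      linarith
    calc ‖h z‖ * ‖qq p z ^ m - 1‖ ≤ C * (m * (η / (C * (m + 1)) / 2)) := by
          gcongr
          exact k2.trans k4
      _ = η / 2 * (m / (m + 1)) := by
          field_simp
      _ ≤ η / 2 * 1 := by
          gcongr
          rw [div_le_one (by positivity)]
          linarith
      _ = η / 2 := by ring
  have e3 : H z - h z = -(ga θ ε p h m z - H z) + h z * (qq p z ^ m - 1) := by
    rw [h8]
    ring
  rw [e3]
  refine (norm_add_le _ _).trans ?_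
  rw [norm_neg]
  linarith

end Pool.Agent.N385.RM
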